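import Mathlib
import Pool.Agent.R528.RM.BHOut
import Pool.Agent.N860.HL.Ana

set_option autoImplicit false

/-! # Generalized Wagstaff numbers: arithmetic and the sum of the profile -/

open Filter Set
open scoped Topology

namespace Pool.Agent.N860.GW

open Pool.Agent.R528.RM Pool.Agent.N860.HL

/-- `(b^n + 1) / (b + 1)` -/
def Fb (b n : ℕ) : ℕ := (b ^ n + 1) / (b + 1)

lemma Fb_mul (b n : ℕ) (hn : Odd n) : (b + 1) * Fb b n = b ^ n + 1 := by
  unfold Fb
  apply Nat.mul_div_cancel'
  have := hn.nat_add_dvd_pow_add_pow b 1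
  rwa [one_pow] at this

lemma Fb_le (b n : ℕ) : Fb b n ≤ b ^ n + 1 := Nat.div_le_self _ _

lemma Fb_ge (b n : ℕ) (hb : 2 ≤ b) : b ^ n ≤ Fb b (n + 2) := by
  unfold Fb
  rw [Nat.le_div_iff_mul_le (by omega)]
  have h1 : b ^ (n + 2) = b ^ n * b ^ 2 := pow_add b n 2
  rw [h1]
  have h2 : b + 1 ≤ b ^ 2 := by nlinarith
  have h3 := Nat.mul_le_mul_left (b ^ n) h2
  omega

lemma Fb_lt (b n : ℕ) (hb : 2 ≤ b) : Fb b (n + 2) < Fb b (n + 3) := by
  unfold Fb
  rw [← Nat.succ_le_iff, Nat.succ_eq_add_one, Nat.le_div_iff_mul_le (by omega)]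
  have h1 := Nat.div_mul_le_self (b ^ (n + 2) + 1) (b + 1)
  have h2 : b ^ (n + 3) = b ^ (n + 2) * b := pow_succ b (n + 2)
  have h3 : 1 ≤ b ^ n := Nat.one_le_pow _ _ (by omega)
  have h4 : b ^ (n + 2) = b ^ n * b ^ 2 := pow_add b n 2
  have h5 : b ^ 2 ≤ b ^ n * b ^ 2 := Nat.le_mul_of_pos_left _ h3
  have h6 : b ^ (n + 2) + (b + 1) ≤ b ^ (n + 2) * b := by
    rw [h4]
    have h7 : b + 1 ≤ b ^ 2 := by nlinarith
    nlinarith
  rw [h2, add_mul, one_mul]
  omega

/-- no small prime divides the numbers -/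
lemma Fb_coprime (y b n : ℕ) (hy : 2 ≤ y) (hn : ∀ p, p.Prime → p ≤ y → ¬ p ∣ n) :
    ∀ p, p.Prime → p ≤ y → ¬ p ∣ Fb b n := by
  intro p hp hpy hdvd
  have hodd : Odd n := by
    rw [← Nat.not_even_iff_odd]
    intro h
    exact hn 2 Nat.prime_two hy h.two_dvd
  have : Fact p.Prime := ⟨hp⟩
  set x : ZMod p := -(b : ZMod p) with hx
  have h1 : (Fb b n : ℤ) = ∑ i ∈ Finset.range n, (-(b : ℤ)) ^ i := by
    have h2 := geom_sum_mul (-(b : ℤ)) n
    have h3 : ((b : ℤ) + 1) * Fb b n = (b : ℤ) ^ n + 1 := by exact_mod_cast Fb_mul b n hodd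
    rw [hodd.neg_pow] at h2
    have h4 : ((b : ℤ) + 1) ≠ 0 := by positivity
    apply mul_left_cancel₀ h4
    linear_combination h3 + h2
  have h2 : ∑ i ∈ Finset.range n, x ^ i = 0 := by
    have h3 : ((Fb b n : ℤ) : ZMod p) = 0 := by
      rw [Int.cast_natCast]
      exact (ZMod.natCast_eq_zero_iff _ _).2 hdvd
    rw [h1] at h3
    push_cast at h3
    exact h3
  have h3 : x ^ n = 1 := by
    have := geom_sum_mul x n
    rw [h2, zero_mul] at this
    exact (sub_eq_zero.1 this.symm)
  have hn0 : n ≠ 0 := by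
    rintro rfl
    exact hn 2 Nat.prime_two hy (dvd_zero 2)
  have hx0 : x ≠ 0 := by
    intro h
    rw [h, zero_pow hn0] at h3
    exact zero_ne_one h3
  have h4 : x ^ (p - 1) = 1 := ZMod.pow_card_sub_one_eq_one hx0
  have h5 : Nat.Coprime n (p - 1) := by
    refine Nat.coprime_of_dvd ?_
    intro q hq hqn hqp
    have h6 : q ≤ p - 1 := Nat.le_of_dvd (by have := hp.two_le; omega) hqp
    exact hn q hq (by omega) hqn
  have h6 : orderOf x ∣ Nat.gcd n (p - 1) := Nat.dvd_gcd (orderOf_dvd_of_pow_eq_one h3) (orderOf_dvd_of_pow_eq_one h4)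
  rw [h5, Nat.dvd_one, orderOf_eq_one_iff] at h6
  rw [h6] at h2
  simp only [one_pow, Finset.sum_const, Finset.card_range, nsmul_eq_mul, mul_one] at h2
  exact hn p hp hpy ((ZMod.natCast_eq_zero_iff _ _).1 h2)

/-- the comparison function -/
noncomputable def g (t : ℝ) : ℝ := 1 / ((t + 3) * Real.log (t + 3))

lemma log3 {t : ℝ} (ht : 0 ≤ t) : 1 ≤ Real.log (t + 3) := by
  rw [Real.le_log_iff_exp_le (by linarith)]
  linarith [Real.exp_one_lt_d9]

lemma g_anti : AntitoneOn g (Ici 0) := by
  intro s hs t _ hst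
  have hs' : 0 ≤ s := hs
  have h1 := log3 hs'
  unfold g
  apply one_div_le_one_div_of_le (by positivity)
  have h2 : Real.log (s + 3) ≤ Real.log (t + 3) := Real.log_le_log (by linarith) (by linarith)
  exact mul_le_mul (by linarith) h2 (by linarith) (by linarith)

lemma g_nonneg {t : ℝ} (ht : 0 ≤ t) : 0 ≤ g t := by
  have := log3 ht
  unfold g
  positivity

lemma g_int (x : ℕ) : ∫ t in (0:ℝ)..x, g t = Real.log (Real.log (x + 3)) - Real.log (Real.log 3) := by
  have h := intervalIntegral.integral_eq_sub_of_hasDerivAt (f := fun t : ℝ => Real.log (Real.log (t + 3)))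
    (f' := g) (a := 0) (b := x) (by
      intro t ht
      rw [uIcc_of_le (Nat.cast_nonneg x)] at ht
      have h1 := log3 ht.1
      have h2 : t + 3 ≠ 0 := by linarith [ht.1]
      have h3 : HasDerivAt (fun t : ℝ => t + 3) 1 t := (hasDerivAt_id t).add_const 3
      have h4 := (h3.log h2).log (by linarith)
      have e : g t = 1 / (t + 3) / Real.log (t + 3) := by
        unfold g
        field_simp
      rw [e]
      exact h4) (by
      apply AntitoneOn.intervalIntegrable
      rw [uIcc_of_le (Nat.cast_nonneg x)]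
      exact g_anti.mono fun t ht => ht.1)
  rw [h]
  norm_num

lemma loglog_atTop : Tendsto (fun x : ℕ => Real.log (Real.log x)) atTop atTop :=
  Real.tendsto_log_atTop.comp (Real.tendsto_log_atTop.comp tendsto_natCast_atTop_atTop)

/-- `loglog (x + 3) ~ loglog x` -/
lemma loglog_ratio : Tendsto (fun x : ℕ => Real.log (Real.log ((x : ℝ) + 3)) / Real.log (Real.log x)) atTop (𝓝 1) := by
  have h1 : Tendsto (fun x : ℕ => Real.log 2 / Real.log (Real.log x)) atTop (𝓝 0) :=
    Tendsto.div_atTop tendsto_const_nhds loglog_atTop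
  have h2 : Tendsto (fun x : ℕ => 1 + Real.log 2 / Real.log (Real.log x)) atTop (𝓝 1) := by
    simpa using h1.const_add 1
  refine tendsto_of_tendsto_of_tendsto_of_le_of_le' tendsto_const_nhds h2 ?_ ?_
  · filter_upwards [loglog_atTop.eventually_gt_atTop 0, eventually_ge_atTop 3] with x g1 g2
    rw [le_div_iff₀ g1, one_mul]
    have hx : (3 : ℝ) ≤ x := by exact_mod_cast g2
    have : 0 < Real.log x := Real.log_pos (by linarith)
    exact Real.log_le_log this (Real.log_le_log (by linarith) (by linarith))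
  · filter_upwards [loglog_atTop.eventually_gt_atTop 0, eventually_ge_atTop 3] with x g1 g2
    have hx : (3 : ℝ) ≤ x := by exact_mod_cast g2
    have hl : 0 < Real.log x := Real.log_pos (by linarith)
    rw [div_le_iff₀ g1, add_mul, one_mul, div_mul_cancel₀ _ g1.ne',
      add_comm (Real.log (Real.log (x : ℝ))) (Real.log 2), ← Real.log_mul (by norm_num) hl.ne']
    apply Real.log_le_log (Real.log_pos (by linarith))
    have : Real.log ((x : ℝ) + 3) ≤ Real.log ((x : ℝ) ^ 2) := by
      apply Real.log_le_log (by linarith)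
      nlinarith
    rw [Real.log_pow] at this
    exact_mod_cast this

/-- sums over periodic sets -/
lemma sum_loglog (p : ℕ → Prop) [DecidablePred p] (W : ℕ) (hW : 0 < W) (hp : Function.Periodic p W)
    (u : ℕ → ℝ) (κ : ℝ) (hu : Tendsto (fun n : ℕ => u n / g n) atTop (𝓝 κ)) :
    Tendsto (fun x : ℕ => (∑ n ∈ Finset.range (x + 1), if p n then u n else 0) / Real.log (Real.log x)) atTop
      (𝓝 ((Nat.count p W : ℝ) / W * κ)) := by
  set δ : ℝ := (Nat.count p W : ℝ) / W with hδ
  have hgpos : ∀ n : ℕ, 0 < g n := by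
    intro n
    have := log3 (Nat.cast_nonneg n : (0:ℝ) ≤ n)
    unfold g
    positivity
  -- the sum of g over the periodic set
  have h1 : Tendsto (fun x : ℕ => (∑ n ∈ Finset.range (x + 1), if p n then g n else 0) / Real.log (Real.log x)) atTop
      (𝓝 δ) := by
    have k1 : ∀ x : ℕ, |∑ n ∈ Finset.range (x + 1), (if p n then g n else 0) -
        δ * (Real.log (Real.log (x + 3)) - Real.log (Real.log 3))| ≤ (W + 1) * g 0 := by
      intro x
      have := periodic_integral p W hW hp g g_anti (fun t ht => g_nonneg ht) x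
      rwa [g_int] at this
    have k2 : Tendsto (fun x : ℕ => (∑ n ∈ Finset.range (x + 1), (if p n then g n else 0) -
        δ * (Real.log (Real.log (x + 3)) - Real.log (Real.log 3))) / Real.log (Real.log x)) atTop (𝓝 0) := by
      have k3 : Tendsto (fun x : ℕ => (W + 1) * g 0 / Real.log (Real.log x)) atTop (𝓝 0) :=
        Tendsto.div_atTop tendsto_const_nhds loglog_atTop
      refine squeeze_zero_norm' ?_ k3
      filter_upwards [loglog_atTop.eventually_gt_atTop 0] with x gx
      rw [norm_div, Real.norm_eq_abs, Real.norm_of_nonneg gx.le]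
      exact div_le_div_of_nonneg_right (k1 x) gx.le
    have k4 : Tendsto (fun x : ℕ => δ * (Real.log (Real.log ((x : ℝ) + 3)) / Real.log (Real.log x)) -
        δ * Real.log (Real.log 3) / Real.log (Real.log x)) atTop (𝓝 (δ * 1 - 0)) :=
      (loglog_ratio.const_mul δ).sub (Tendsto.div_atTop tendsto_const_nhds loglog_atTop)
    have k5 := k2.add k4
    simp only [mul_one, sub_zero, zero_add] at k5
    refine k5.congr fun x => ?_
    ring
  -- the sum of g tends to infinity
  have h2 : Tendsto (fun x : ℕ => ∑ n ∈ Finset.range x, g n) atTop atTop := by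
    have k1 : ∀ x : ℕ, Real.log (Real.log (x + 3)) - Real.log (Real.log 3) ≤ ∑ n ∈ Finset.range x, g n := by
      intro x
      rw [← g_int]
      have k2 : AntitoneOn g (Icc (0:ℝ) (0 + (x : ℕ))) := g_anti.mono fun t ht => ht.1
      have k3 := k2.integral_le_sum
      simp only [zero_add] at k3
      exact k3
    refine tendsto_atTop_mono k1 ?_
    apply tendsto_atTop_add_const_right
    have k2 : Tendsto (fun x : ℕ => (x : ℝ) + 3) atTop atTop := tendsto_atTop_add_const_right _ _ tendsto_natCast_atTop_atTop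
    exact Real.tendsto_log_atTop.comp (Real.tendsto_log_atTop.comp k2)
  have h3 : (fun n : ℕ => if p n then u n - κ * g n else 0) =o[atTop] (fun n : ℕ => g n) := by
    rw [Asymptotics.isLittleO_iff_tendsto (fun n hn => absurd hn (hgpos n).ne')]
    have k1 : Tendsto (fun n : ℕ => |u n / g n - κ|) atTop (𝓝 0) := by
      have := (hu.sub_const κ).abs
      simpa using this
    refine squeeze_zero_norm (fun n => ?_) k1
    split_ifs
    · rw [sub_div, mul_div_assoc, div_self (hgpos n).ne', mul_one, Real.norm_eq_abs]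
    · rw [zero_div, norm_zero]
      exact abs_nonneg _
  have h4 := h3.sum_range (fun n => (hgpos n).le) h2
  have h5 : Tendsto (fun x : ℕ => (∑ n ∈ Finset.range (x + 1), g n) / Real.log (Real.log x)) atTop (𝓝 1) := by
    have k1 : ∀ x : ℕ, |∑ n ∈ Finset.range (x + 1), (if True then g n else 0) -
        ((Nat.count (fun _ => True) 1 : ℝ) / (1:ℕ)) * ∫ t in (0:ℝ)..x, g t| ≤ (((1:ℕ):ℝ) + 1) * g 0 := fun x =>
      periodic_integral (fun _ => True) 1 one_pos (fun _ => rfl) g g_anti (fun t ht => g_nonneg ht) x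
    have k2 : Tendsto (fun x : ℕ => (∑ n ∈ Finset.range (x + 1), g n -
        (Real.log (Real.log (x + 3)) - Real.log (Real.log 3))) / Real.log (Real.log x)) atTop (𝓝 0) := by
      have k3 : Tendsto (fun x : ℕ => (((1:ℕ):ℝ) + 1) * g 0 / Real.log (Real.log x)) atTop (𝓝 0) :=
        Tendsto.div_atTop tendsto_const_nhds loglog_atTop
      refine squeeze_zero_norm' ?_ k3
      filter_upwards [loglog_atTop.eventually_gt_atTop 0] with x gx
      rw [norm_div, Real.norm_eq_abs, Real.norm_of_nonneg gx.le]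
      apply div_le_div_of_nonneg_right _ gx.le
      have := k1 x
      rw [g_int] at this
      simpa using this
    have k4 : Tendsto (fun x : ℕ => (Real.log (Real.log ((x : ℝ) + 3)) / Real.log (Real.log x)) -
        Real.log (Real.log 3) / Real.log (Real.log x)) atTop (𝓝 (1 - 0)) :=
      loglog_ratio.sub (Tendsto.div_atTop tendsto_const_nhds loglog_atTop)
    have k5 := k2.add k4
    simp only [sub_zero, zero_add] at k5
    refine k5.congr fun x => ?_
    ring
  have h6 : Tendsto (fun x : ℕ => (∑ n ∈ Finset.range (x + 1), if p n then u n - κ * g n else 0) /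
      Real.log (Real.log x)) atTop (𝓝 0) := by
    have k1 := (h4.comp_tendsto (tendsto_add_atTop_nat 1)).tendsto_div_nhds_zero
    have k2 := k1.mul h5
    rw [zero_mul] at k2
    refine k2.congr' ?_
    filter_upwards [loglog_atTop.eventually_gt_atTop 0] with x gx
    simp only [Function.comp_apply]
    have : 0 < ∑ n ∈ Finset.range (x + 1), g n := Finset.sum_pos (fun n _ => hgpos n) ⟨0, by simp⟩
    field_simp
  have h7 := (h1.const_mul κ).add h6
  rw [add_zero, mul_comm] at h7
  refine h7.congr fun x => ?_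
  rw [mul_div_assoc', ← add_div, Finset.mul_sum, ← Finset.sum_add_distrib]
  congr 1
  refine Finset.sum_congr rfl fun n _ => ?_
  split_ifs <;> ring

end Pool.Agent.N860.GW
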