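import Mathlib
import Pool.Agent.N860.GW.Arith
import Pool.Agent.N860.LP.Fin

set_option autoImplicit false
set_option linter.unusedSectionVars false

/-! # The law for the generalized Wagstaff numbers in sieved random models -/

open MeasureTheory Filter Set
open scoped Topology

namespace Pool.Agent.N860.GW

open Pool.Agent.R528.RM Pool.Agent.N860.HL

lemma log_Fb_ratio (b : ℕ) (hb : 2 ≤ b) :
    Tendsto (fun n : ℕ => Real.log (Fb b n) / n) atTop (𝓝 (Real.log b)) := by
  have hb1 : (1 : ℝ) < b := by exact_mod_cast hb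
  have hlb : 0 < Real.log b := Real.log_pos hb1
  have h1 : Tendsto (fun n : ℕ => Real.log b - 2 * Real.log b / n) atTop (𝓝 (Real.log b)) := by
    simpa using (tendsto_const_nhds (x := Real.log b)).sub (tendsto_const_div_atTop_nhds_zero_nat (2 * Real.log b))
  have h2 : Tendsto (fun n : ℕ => Real.log b + Real.log b / n) atTop (𝓝 (Real.log b)) := by
    simpa using (tendsto_const_nhds (x := Real.log b)).add (tendsto_const_div_atTop_nhds_zero_nat (Real.log b))
  refine tendsto_of_tendsto_of_tendsto_of_le_of_le' h1 h2 ?_ ?_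
  · filter_upwards [eventually_ge_atTop 2] with n hn
    obtain ⟨m, rfl⟩ := Nat.exists_eq_add_of_le hn
    have hn0 : (0 : ℝ) < ((2 + m : ℕ) : ℝ) := by positivity
    rw [le_div_iff₀ hn0, sub_mul, div_mul_cancel₀ _ hn0.ne']
    have h3 : ((b ^ m : ℕ) : ℝ) ≤ (Fb b (2 + m) : ℝ) := by
      rw [add_comm 2 m]
      exact_mod_cast Fb_ge b m hb
    have h4 : Real.log ((b : ℝ) ^ m) ≤ Real.log (Fb b (2 + m)) := by
      apply Real.log_le_log (by positivity)
      push_cast at h3
      exact h3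
    rw [Real.log_pow] at h4
    push_cast
    linarith
  · filter_upwards [eventually_ge_atTop 2] with n hn
    obtain ⟨m, rfl⟩ := Nat.exists_eq_add_of_le hn
    have hn0 : (0 : ℝ) < ((2 + m : ℕ) : ℝ) := by positivity
    rw [div_le_iff₀ hn0, add_mul, div_mul_cancel₀ _ hn0.ne']
    have h5 : Fb b (2 + m) ≤ b ^ (2 + m + 1) := by
      refine (Fb_le b _).trans ?_
      rw [pow_succ b (2 + m)]
      have : 1 ≤ b ^ (2 + m) := Nat.one_le_pow _ _ (by omega)
      nlinarith
    have h6 : 0 < Fb b (2 + m) := by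
      rw [add_comm 2 m]
      exact lt_of_lt_of_le (pow_pos (by omega) m) (Fb_ge b m hb)
    have h7 : Real.log (Fb b (2 + m)) ≤ Real.log ((b : ℝ) ^ (2 + m + 1)) := by
      apply Real.log_le_log (by exact_mod_cast h6)
      exact_mod_cast h5
    rw [Real.log_pow] at h7
    push_cast at h7 ⊢
    linarith

lemma log3_ratio : Tendsto (fun n : ℕ => Real.log ((n : ℝ) + 3) / Real.log n) atTop (𝓝 1) := by
  have h1 : Tendsto (fun n : ℕ => Real.log 4 / Real.log n) atTop (𝓝 0) :=
    Tendsto.div_atTop tendsto_const_nhds (Real.tendsto_log_atTop.comp tendsto_natCast_atTop_atTop)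
  have h3 : Tendsto (fun n : ℕ => 3 / (n : ℝ) / Real.log n) atTop (𝓝 0) := by
    have k1 : Tendsto (fun n : ℕ => (3 : ℝ) / (n : ℝ)) atTop (𝓝 0) := tendsto_const_div_atTop_nhds_zero_nat 3
    have k2 : Tendsto (fun n : ℕ => Real.log (n : ℝ)) atTop atTop :=
      Real.tendsto_log_atTop.comp tendsto_natCast_atTop_atTop
    exact k1.div_atTop k2
  have h2 : Tendsto (fun n : ℕ => 1 + 3 / (n : ℝ) / Real.log n) atTop (𝓝 1) := by
    simpa using h3.const_add 1
  refine tendsto_of_tendsto_of_tendsto_of_le_of_le' tendsto_const_nhds h2 ?_ ?_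
  · filter_upwards [eventually_ge_atTop 2] with n hn
    have hn1 : (1 : ℝ) < n := by exact_mod_cast hn
    have hl := Real.log_pos hn1
    rw [le_div_iff₀ hl, one_mul]
    exact Real.log_le_log (by linarith) (by linarith)
  · filter_upwards [eventually_ge_atTop 2] with n hn
    have hn1 : (1 : ℝ) < n := by exact_mod_cast hn
    have hl := Real.log_pos hn1
    rw [div_le_iff₀ hl, add_mul, one_mul, div_mul_cancel₀ _ hl.ne']
    have e : (n : ℝ) + 3 = n * (1 + 3 / n) := by field_simp
    rw [e, Real.log_mul (by linarith) (by positivity)]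
    have := Real.log_le_sub_one_of_pos (show 0 < 1 + 3 / (n : ℝ) by positivity)
    linarith

/-- the product of the two densities -/
noncomputable def u (c : ℝ) (b n : ℕ) : ℝ := min 1 (c / Real.log n) * min 1 (c / Real.log (Fb b n))

lemma u_ratio (c : ℝ) (hc : 0 < c) (b : ℕ) (hb : 2 ≤ b) :
    Tendsto (fun n : ℕ => u c b n / g n) atTop (𝓝 (c ^ 2 / Real.log b)) := by
  have hb1 : (1 : ℝ) < b := by exact_mod_cast hb
  have hlb : 0 < Real.log b := Real.log_pos hb1
  have h1 := log_Fb_ratio b hb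
  have hlog : Tendsto (fun n : ℕ => Real.log (n : ℝ)) atTop atTop :=
    Real.tendsto_log_atTop.comp tendsto_natCast_atTop_atTop
  have h2 : Tendsto (fun n : ℕ => ((n : ℝ) + 3) / n) atTop (𝓝 1) := by
    have : Tendsto (fun n : ℕ => 1 + 3 / (n : ℝ)) atTop (𝓝 1) := by
      simpa using (tendsto_const_div_atTop_nhds_zero_nat (3 : ℝ)).const_add 1
    refine this.congr' ?_
    filter_upwards [eventually_gt_atTop 0] with n hn
    have : (0 : ℝ) < n := by exact_mod_cast hn
    field_simp
  have h3 : Tendsto (fun n : ℕ => Real.log (Fb b n)) atTop atTop := by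
    have k1 : Tendsto (fun n : ℕ => (Real.log (Fb b n) / n) * n) atTop atTop :=
      h1.pos_mul_atTop hlb tendsto_natCast_atTop_atTop
    refine k1.congr' ?_
    filter_upwards [eventually_gt_atTop 0] with n hn
    have : (0 : ℝ) < n := by exact_mod_cast hn
    field_simp
  have h4 : Tendsto (fun n : ℕ => c ^ 2 * ((Real.log ((n : ℝ) + 3) / Real.log n) * (((n : ℝ) + 3) / n) *
      (Real.log (Fb b n) / n)⁻¹)) atTop (𝓝 (c ^ 2 * (1 * 1 * (Real.log b)⁻¹))) :=
    ((log3_ratio.mul h2).mul (h1.inv₀ hlb.ne')).const_mul _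
  have e : c ^ 2 * (1 * 1 * (Real.log b)⁻¹) = c ^ 2 / Real.log b := by ring
  rw [e] at h4
  refine h4.congr' ?_
  filter_upwards [hlog.eventually_ge_atTop c, h3.eventually_ge_atTop c, eventually_gt_atTop 0] with n g1 g2 g3
  have hn : (0 : ℝ) < n := by exact_mod_cast g3
  have hl : 0 < Real.log n := by linarith
  have hF : 0 < Real.log (Fb b n) := by linarith
  have h5 : c / Real.log n ≤ 1 := by rwa [div_le_one hl]
  have h6 : c / Real.log (Fb b n) ≤ 1 := by rwa [div_le_one hF]
  have h7 := log3 hn.le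
  unfold u g
  rw [min_eq_right h5, min_eq_right h6]
  field_simp

/-- the two numbers -/
def FF (b : ℕ) (i : Bool) (n : ℕ) : ℕ := if i then Fb b n else n

variable {Ω : Type} {m0 : MeasurableSpace Ω} {μ : Measure Ω} [IsProbabilityMeasure μ]
  {ℱ : Filtration ℕ m0} {S : ℕ → Set Ω}

lemma prod_FF (b : ℕ) (f : ℕ → ℝ) (n : ℕ) : ∏ i : Bool, f (FF b i n) = f n * f (Fb b n) := by
  rw [Fintype.prod_bool]
  unfold FF
  simp [mul_comm]

lemma coprime_iff (y n : ℕ) : Nat.Coprime n (∏ p ∈ Nat.primesLE y, p) ↔ ∀ p, p.Prime → p ≤ y → ¬ p ∣ n := by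
  rw [Nat.coprime_prod_right_iff]
  constructor
  · intro h p hp hpy
    have := h p (Nat.mem_primesLE.2 ⟨hpy, hp⟩)
    rw [Nat.coprime_comm] at this
    exact (Nat.Prime.coprime_iff_not_dvd hp).1 this
  · intro h p hp
    obtain ⟨h1, h2⟩ := Nat.mem_primesLE.1 hp
    rw [Nat.coprime_comm]
    exact (Nat.Prime.coprime_iff_not_dvd h2).2 (h p h2 h1)

lemma prod_rho (y : ℕ) (hy : 2 ≤ y) (b n : ℕ) :
    rhoW (∏ p ∈ Nat.primesLE y, p) n * rhoW (∏ p ∈ Nat.primesLE y, p) (Fb b n) =
      if Nat.Coprime n (∏ p ∈ Nat.primesLE y, p) then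
        u (((∏ p ∈ Nat.primesLE y, p : ℕ) : ℝ) / Nat.totient (∏ p ∈ Nat.primesLE y, p)) b n else 0 := by
  unfold rhoW u
  by_cases h : Nat.Coprime n (∏ p ∈ Nat.primesLE y, p)
  · have h2 : Nat.Coprime (Fb b n) (∏ p ∈ Nat.primesLE y, p) := by
      rw [coprime_iff] at h ⊢
      exact Fb_coprime y b n hy h
    rw [if_pos h, if_pos h2, if_pos h]
  · rw [if_neg h, if_neg h, zero_mul]

open Classical in
theorem law (y : ℕ) (hy : 2 ≤ y) (hS : ∀ n, MeasurableSet[ℱ n] (S n))
    (hd : ∀ᵐ ω ∂μ, ∀ ε : ℝ, 0 < ε → ∀ᶠ n : ℕ in atTop,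
      |dens μ ℱ S n ω - rhoW (∏ p ∈ Nat.primesLE y, p) (n + 1)| ≤ ε * rhoW (∏ p ∈ Nat.primesLE y, p) (n + 1)) :
    ∀ᵐ ω ∂μ, ∀ b : ℕ, 2 ≤ b →
      Tendsto (fun x : ℕ => ({n : ℕ | n ≤ x ∧ ω ∈ S n ∧ ω ∈ S (Fb b n)}.ncard : ℝ) / Real.log (Real.log x))
        atTop (𝓝 ((∏ p ∈ Nat.primesLE y, (1 - 1 / (p : ℝ))⁻¹) / Real.log b)) := by
  set W := ∏ p ∈ Nat.primesLE y, p with hWdef
  have hQ : ∀ p ∈ Nat.primesLE y, p.Prime := fun p hp => (Nat.mem_primesLE.1 hp).2
  have hW : 0 < W := Finset.prod_pos fun q hq => (hQ q hq).pos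
  have hφ : 0 < Nat.totient W := Nat.totient_pos.2 hW
  set c : ℝ := (W : ℝ) / Nat.totient W with hcdef
  have hW' : (0 : ℝ) < W := by exact_mod_cast hW
  have hφ' : (0 : ℝ) < Nat.totient W := by exact_mod_cast hφ
  have hc : 0 < c := by positivity
  have hcprod : c = ∏ p ∈ Nat.primesLE y, (1 - 1 / (p : ℝ))⁻¹ := totient_prod (Nat.primesLE y) hQ
  rw [← hcprod]
  rw [ae_all_iff]
  intro b
  by_cases hb : 2 ≤ b
  swap
  · exact Eventually.of_forall fun ω h => absurd h hb
  have hb1 : (1 : ℝ) < b := by exact_mod_cast hb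
  have hlb : 0 < Real.log b := Real.log_pos hb1
  -- the expected number
  have hper : Function.Periodic (fun n : ℕ => Nat.Coprime n W) W := by
    intro n
    simp only [eq_iff_iff]
    exact Nat.coprime_add_self_left
  have hcount : (Nat.count (fun n : ℕ => Nat.Coprime n W) W : ℝ) = Nat.totient W := by
    rw [Nat.count_eq_card_filter_range, Nat.totient]
    congr 2
    ext n
    simp only [Finset.mem_filter]
    rw [Nat.coprime_comm]
  have hE : Tendsto (fun x : ℕ => (∑ n ∈ Finset.range (x + 1), ∏ i : Bool, rhoW W (FF b i n)) / Real.log (Real.log x))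
      atTop (𝓝 (c / Real.log b)) := by
    have h1 := sum_loglog (fun n : ℕ => Nat.Coprime n W) W hW hper (u c b) (c ^ 2 / Real.log b) (u_ratio c hc b hb)
    rw [hcount] at h1
    have h2 : (Nat.totient W : ℝ) / W * (c ^ 2 / Real.log b) = c / Real.log b := by
      rw [hcdef]
      field_simp
    rw [h2] at h1
    refine h1.congr fun x => ?_
    congr 1
    refine Finset.sum_congr rfl fun n _ => ?_
    rw [prod_FF, hWdef, prod_rho y hy b n]
  have hU : Tendsto (fun x : ℕ => ∑ n ∈ Finset.range x, ∏ i : Bool, rhoW W (FF b i n)) atTop atTop := by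
    rw [← tendsto_add_atTop_iff_nat 1]
    have h1 := hE.pos_mul_atTop (by positivity) loglog_atTop
    refine h1.congr' ?_
    filter_upwards [loglog_atTop.eventually_gt_atTop 0] with x gx
    field_simp
  have hFmono : ∀ᶠ n in atTop, Fb b n < Fb b (n + 1) := by
    filter_upwards [eventually_ge_atTop 2] with n hn
    obtain ⟨m, rfl⟩ := Nat.exists_eq_add_of_le hn
    have := Fb_lt b m hb
    rw [add_comm 2 m]
    exact this
  have hFord : ∀ᶠ n in atTop, n < Fb b n := by
    filter_upwards [eventually_ge_atTop 6] with n hn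
    obtain ⟨m, rfl⟩ := Nat.exists_eq_add_of_le (show 2 ≤ n by omega)
    have h1 := Fb_ge b m hb
    have h2 : 2 ^ m ≤ b ^ m := Nat.pow_le_pow_left hb m
    have h3 : 2 + m < 2 ^ m := by
      have h4 : 4 ≤ m := by omega
      obtain ⟨j, rfl⟩ := Nat.exists_eq_add_of_le h4
      have h5 : j < 2 ^ j := Nat.lt_two_pow_self
      have h6 : 2 ^ (4 + j) = 16 * 2 ^ j := by rw [pow_add]; norm_num
      omega
    rw [add_comm 2 m] at *
    omega
  have h := general_final (μ := μ) hS (rhoW W) (fun n => ⟨rhoW_nonneg W n, rhoW_le W n⟩) hd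
    (Finset.univ : Finset Bool) (FF b) (by
      intro i _
      cases i
      · exact Eventually.of_forall fun n => Nat.lt_succ_self n
      · exact hFmono) (by
      intro i _ j _ hij
      cases i <;> cases j
      · exact absurd rfl hij
      · left
        exact hFord
      · right
        exact hFord
      · exact absurd rfl hij) hU
  filter_upwards [h] with ω hω _
  have h1 := (hω.comp (tendsto_add_atTop_nat 1)).mul hE
  rw [one_mul] at h1
  refine h1.congr' ?_
  filter_upwards [(hU.comp (tendsto_add_atTop_nat 1)).eventually_gt_atTop 0] with x gx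
  simp only [Function.comp_apply] at gx ⊢
  rw [div_mul_div_comm, mul_comm (∑ n ∈ Finset.range (x + 1), ∏ i : Bool, rhoW W (FF b i n)) (Real.log (Real.log x)),
    mul_div_mul_right _ _ gx.ne']
  congr 3
  ext n
  simp only [Set.mem_ofPred_eq, Finset.mem_univ, true_imp_iff, Bool.forall_bool, Nat.lt_succ_iff]
  unfold FF
  simp

end Pool.Agent.N860.GW
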